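import Pool.Agent.H98.KS.Targets1

/-!
# MID: all scales up to `N^M`
-/

set_option autoImplicit false

open scoped BigOperators

namespace Pool.Agent.H35.KS

open Pool.Agent.H98.KS

lemma geo_range (r : ℝ) (hr : 2 ≤ r) (m : ℕ) : ∑ j ∈ Finset.range (m + 1), r ^ j ≤ 2 * r ^ m := by
  induction m with
  | zero => simp
  | succ m ih =>
    rw [Finset.sum_range_succ]
    have h1 : 2 * r ^ m ≤ r ^ (m + 1) := by
      rw [pow_succ, mul_comm]
      gcongr
    linarith

lemma geo (e : ℕ) (he : 1 ≤ e) (Y : ℝ) (hY : 0 ≤ Y) (S : Finset ℕ)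
    (hS : ∀ j ∈ S, (2 : ℝ) ^ j ≤ Y) : ∑ j ∈ S, ((2 : ℝ) ^ j) ^ e ≤ 2 * Y ^ e := by
  rcases S.eq_empty_or_nonempty with h | h
  · subst h
    simp only [Finset.sum_empty]
    positivity
  · have hm := S.max'_mem h
    set m := S.max' h with hmd
    have h1 : ∀ j : ℕ, ((2 : ℝ) ^ j) ^ e = ((2 : ℝ) ^ e) ^ j := fun j => by
      rw [← pow_mul, ← pow_mul, mul_comm]
    simp_rw [h1]
    have h2 : ∑ j ∈ S, ((2 : ℝ) ^ e) ^ j ≤ ∑ j ∈ Finset.range (m + 1), ((2 : ℝ) ^ e) ^ j := by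
      refine Finset.sum_le_sum_of_subset_of_nonneg ?_ (fun _ _ _ => by positivity)
      intro j hj
      rw [Finset.mem_range]
      exact Nat.lt_succ_of_le (S.le_max' j hj)
    refine h2.trans ((geo_range _ ?_ m).trans ?_)
    · calc (2 : ℝ) = 2 ^ 1 := by norm_num
        _ ≤ 2 ^ e := pow_le_pow_right₀ (by norm_num) he
    · rw [← h1]
      have h3 := hS m hm
      gcongr

theorem ks_MID (hRA : T_RA) (hRB : T_RB) (hRT : T_RT) : T_MID := by
  classical
  intro k M hk hM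
  obtain ⟨D, hD⟩ := hRB k M hk hM
  refine ⟨D, fun d hd => ⟨(hD d hd).1, fun c0 hc0 => ?_⟩⟩
  have hkd := (hD d hd).1
  obtain ⟨N0, hN0, hB⟩ := (hD d hd).2 c0 hc0
  obtain ⟨C1, C, hC1, hC, hA⟩ := hRA k d hk hkd c0 hc0
  refine ⟨2 * 5 ^ d * (N0 ^ M) ^ d + (2 * 5 ^ d * C1 ^ d + 2 * C + (3 * M + 1) * 6 ^ d),
    by positivity, ?_⟩
  intro N F X hN hX
  have hN' : 0 < N := by linarith
  set J : Finset ℕ := (Finset.range (Nat.log 2 ⌊N ^ M⌋₊ + 1)).filter
    (fun j => (2 : ℝ) ^ j ≤ N ^ M) with hJ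
  set Xj : ℕ → Finset (Fin d → ℤ) := fun j => X.filter (fun x => Rich k N c0 F (2 ^ j) x)
    with hXj
  have hXr : ∀ j, ∀ x ∈ Xj j, Sparse N 1 F x ∧ Rich k N c0 F (2 ^ j) x := by
    intro j x hx
    have := Finset.mem_filter.1 hx
    exact ⟨(hX x this.1).1, this.2⟩
  have hNM : 1 ≤ N ^ M := one_le_pow₀ hN
  have hfl : 1 ≤ ⌊N ^ M⌋₊ := Nat.le_floor (by exact_mod_cast hNM)
  have hsum : (X.card : ℝ) ≤ ∑ j ∈ J, ((Xj j).card : ℝ) := by
    have h1 : X ⊆ J.biUnion Xj := by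
      intro x hx
      obtain ⟨-, j, hj1, hj2⟩ := hX x hx
      refine Finset.mem_biUnion.2 ⟨j, ?_, Finset.mem_filter.2 ⟨hx, hj2⟩⟩
      refine Finset.mem_filter.2 ⟨?_, hj1⟩
      rw [Finset.mem_range]
      refine Nat.lt_succ_of_le (Nat.le_log_of_pow_le (by norm_num) ?_)
      exact Nat.le_floor (by exact_mod_cast hj1)
    have h2 := (Finset.card_le_card h1).trans Finset.card_biUnion_le
    exact_mod_cast h2
  have hJm : ∀ j ∈ J, (2 : ℝ) ^ j ≤ N ^ M := fun j hj => (Finset.mem_filter.1 hj).2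
  have hT : ∀ j, ((Xj j).card : ℝ) ≤ 5 ^ d * ((2 : ℝ) ^ j) ^ d * F.card := by
    intro j
    have h := hRT k d (2 ^ j) N c0 F (Xj j) hk Nat.one_le_two_pow hc0 hN'
      (fun x hx => (hXr j x hx).2)
    rw [mul_pow] at h
    exact_mod_cast h
  have hF0 : (0 : ℝ) ≤ F.card := Nat.cast_nonneg _
  have hNd : 1 ≤ N ^ d := one_le_pow₀ hN
  rcases lt_or_ge N N0 with hlt | hge
  · have h1 : (X.card : ℝ) ≤ 2 * 5 ^ d * (N0 ^ M) ^ d * 1 * F.card := by
      refine hsum.trans ?_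
      calc ∑ j ∈ J, ((Xj j).card : ℝ) ≤ ∑ j ∈ J, 5 ^ d * ((2 : ℝ) ^ j) ^ d * F.card :=
            Finset.sum_le_sum fun j _ => hT j
        _ = 5 ^ d * (∑ j ∈ J, ((2 : ℝ) ^ j) ^ d) * F.card := by
            rw [Finset.mul_sum, Finset.sum_mul]
        _ ≤ 5 ^ d * (2 * (N0 ^ M) ^ d) * F.card := by
            have h2 : ∑ j ∈ J, ((2 : ℝ) ^ j) ^ d ≤ 2 * (N0 ^ M) ^ d := by
              refine geo d (by omega) _ (by positivity) J fun j hj => ?_
              refine (hJm j hj).trans ?_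
              exact pow_le_pow_left₀ hN'.le hlt.le _
            gcongr
        _ = _ := by ring
    refine h1.trans ?_
    have h3 : (0 : ℝ) ≤ 2 * 5 ^ d * C1 ^ d + 2 * C + (3 * M + 1) * 6 ^ d := by positivity
    have h4 : 0 ≤ 2 * 5 ^ d * (N0 ^ M) ^ d := by positivity
    refine mul_le_mul_of_nonneg_right ?_ hF0
    refine mul_le_mul ?_ hNd (by norm_num) (by positivity)
    linarith
  · set E : ℝ := N ^ (1 + 1 / (2 * (k : ℝ))) with hE
    have hE0 : 0 < E := Real.rpow_pos_of_pos hN' _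
    set J1 := J.filter (fun j => (2 : ℝ) ^ j ≤ C1 * N) with hJ1
    set J2 := J.filter (fun j => C1 * N < (2 : ℝ) ^ j ∧ (2 : ℝ) ^ j ≤ E) with hJ2
    set J3 := J.filter (fun j => E < (2 : ℝ) ^ j) with hJ3
    have hsplit : ∑ j ∈ J, ((Xj j).card : ℝ) ≤ ∑ j ∈ J1, ((Xj j).card : ℝ)
        + ∑ j ∈ J2, ((Xj j).card : ℝ) + ∑ j ∈ J3, ((Xj j).card : ℝ) := by
      have h1 : J ⊆ (J1 ∪ J2) ∪ J3 := by
        intro j hj
        simp only [hJ1, hJ2, hJ3, Finset.mem_union, Finset.mem_filter]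
        rcases le_or_gt ((2 : ℝ) ^ j) (C1 * N) with h | h
        · exact Or.inl (Or.inl ⟨hj, h⟩)
        · rcases le_or_gt ((2 : ℝ) ^ j) E with h' | h'
          · exact Or.inl (Or.inr ⟨hj, h, h'⟩)
          · exact Or.inr ⟨hj, h'⟩
      have hu : ∀ A B : Finset ℕ, ∑ j ∈ A ∪ B, ((Xj j).card : ℝ)
          ≤ ∑ j ∈ A, ((Xj j).card : ℝ) + ∑ j ∈ B, ((Xj j).card : ℝ) := by
        intro A B
        rw [← Finset.sum_union_inter]
        have : 0 ≤ ∑ j ∈ A ∩ B, ((Xj j).card : ℝ) :=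
          Finset.sum_nonneg fun _ _ => Nat.cast_nonneg _
        linarith
      have h2 := Finset.sum_le_sum_of_subset_of_nonneg (f := fun j => ((Xj j).card : ℝ)) h1
        (fun _ _ _ => Nat.cast_nonneg _)
      have h3 := hu (J1 ∪ J2) J3
      have h4 := hu J1 J2
      linarith
    have b1 : ∑ j ∈ J1, ((Xj j).card : ℝ) ≤ 2 * 5 ^ d * C1 ^ d * N ^ d * F.card := by
      calc ∑ j ∈ J1, ((Xj j).card : ℝ) ≤ ∑ j ∈ J1, 5 ^ d * ((2 : ℝ) ^ j) ^ d * F.card :=
            Finset.sum_le_sum fun j _ => hT j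
        _ = 5 ^ d * (∑ j ∈ J1, ((2 : ℝ) ^ j) ^ d) * F.card := by
            rw [Finset.mul_sum, Finset.sum_mul]
        _ ≤ 5 ^ d * (2 * (C1 * N) ^ d) * F.card := by
            have h2 : ∑ j ∈ J1, ((2 : ℝ) ^ j) ^ d ≤ 2 * (C1 * N) ^ d :=
              geo d (by omega) _ (by positivity) J1 fun j hj => (Finset.mem_filter.1 hj).2
            gcongr
        _ = _ := by rw [mul_pow]; ring
    have b2 : ∑ j ∈ J2, ((Xj j).card : ℝ) ≤ 2 * C * N ^ d * F.card := by
      calc ∑ j ∈ J2, ((Xj j).card : ℝ)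
          ≤ ∑ j ∈ J2, C * N ^ d * (((2 : ℝ) ^ j) ^ (2 * k - 1) / N ^ (2 * k)) * F.card := by
            refine Finset.sum_le_sum fun j hj => ?_
            have hj' := (Finset.mem_filter.1 hj).2
            have h := hA N (2 ^ j) F (Xj j) hN (by exact_mod_cast hj'.1.le)
              (fun x hx => hXr j x hx)
            exact_mod_cast h
        _ = C * N ^ d * ((∑ j ∈ J2, ((2 : ℝ) ^ j) ^ (2 * k - 1)) / N ^ (2 * k)) * F.card := by
            rw [Finset.sum_div, Finset.mul_sum, Finset.sum_mul]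
        _ ≤ C * N ^ d * ((2 * E ^ (2 * k - 1)) / N ^ (2 * k)) * F.card := by
            have h2 : ∑ j ∈ J2, ((2 : ℝ) ^ j) ^ (2 * k - 1) ≤ 2 * E ^ (2 * k - 1) :=
              geo _ (by omega) _ hE0.le J2 fun j hj => (Finset.mem_filter.1 hj).2.2
            gcongr
        _ ≤ C * N ^ d * 2 * F.card := by
            have h3 : (2 * E ^ (2 * k - 1)) / N ^ (2 * k) ≤ 2 := by
              rw [div_le_iff₀ (by positivity)]
              have h4 : E ^ (2 * k - 1) ≤ N ^ (2 * k) := by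
                rw [hE, ← Real.rpow_natCast, ← Real.rpow_mul hN'.le, ← Real.rpow_natCast]
                refine Real.rpow_le_rpow_of_exponent_le hN ?_
                have h5 : ((2 * k - 1 : ℕ) : ℝ) = 2 * (k : ℝ) - 1 := by
                  rw [Nat.cast_sub (by omega)]
                  push_cast
                  ring
                rw [h5]
                push_cast
                have hk0 : (0 : ℝ) < k := by positivity
                have h6 : (1 + 1 / (2 * (k : ℝ))) * (2 * (k : ℝ) - 1)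
                    = 2 * (k : ℝ) - 1 / (2 * (k : ℝ)) := by
                  field_simp
                  ring
                rw [h6]
                have h7 : 0 ≤ 1 / (2 * (k : ℝ)) := by positivity
                linarith
              linarith
            gcongr
        _ = _ := by ring
    have hcardJ : (J.card : ℝ) ≤ (3 * M + 1) * N ^ ((1 : ℝ) / 2) := by
      have h1 : J.card ≤ Nat.log 2 ⌊N ^ M⌋₊ + 1 :=
        (Finset.card_filter_le _ _).trans (by rw [Finset.card_range])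
      have h2 : (Nat.log 2 ⌊N ^ M⌋₊ : ℝ) ≤ M * Real.logb 2 N := by
        have h3 := Real.natLog_le_logb ⌊N ^ M⌋₊ 2
        refine h3.trans ?_
        rw [← Real.logb_pow]
        refine Real.logb_le_logb_of_le (by norm_num) (by exact_mod_cast hfl) ?_
        exact Nat.floor_le (by positivity)
      have h4 : Real.logb 2 N ≤ 3 * N ^ ((1 : ℝ) / 2) := by
        have h5 : Real.log N ≤ N ^ ((1 : ℝ) / 2) / (1 / 2) :=
          Real.log_le_rpow_div hN'.le (by norm_num)
        have h6 : (0.69 : ℝ) < Real.log 2 := by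
          have := Real.log_two_gt_d9
          linarith
        unfold Real.logb
        rw [div_le_iff₀ (by linarith)]
        have h7 : 0 ≤ N ^ ((1 : ℝ) / 2) := by positivity
        nlinarith
      have h8 : 1 ≤ N ^ ((1 : ℝ) / 2) := Real.one_le_rpow hN (by norm_num)
      have h9 : (J.card : ℝ) ≤ (Nat.log 2 ⌊N ^ M⌋₊ : ℝ) + 1 := by exact_mod_cast h1
      have h10 : (M : ℝ) * Real.logb 2 N ≤ M * (3 * N ^ ((1 : ℝ) / 2)) := by gcongr
      linarith
    have b3 : ∑ j ∈ J3, ((Xj j).card : ℝ) ≤ (3 * M + 1) * 6 ^ d * N ^ d * F.card := by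
      calc ∑ j ∈ J3, ((Xj j).card : ℝ)
          ≤ ∑ _j ∈ J3, 6 ^ d * N ^ ((d : ℝ) - 1 / 2) * F.card := by
            refine Finset.sum_le_sum fun j hj => ?_
            have hj' := Finset.mem_filter.1 hj
            have e1 : E ≤ ((2 ^ j : ℕ) : ℝ) := by
              have := hj'.2.le
              exact_mod_cast this
            have h := hB N (2 ^ j) F (Xj j) hge e1
              (by exact_mod_cast hJm j hj'.1) (fun x hx => hXr j x hx)
            exact h
        _ = (J3.card : ℝ) * (6 ^ d * N ^ ((d : ℝ) - 1 / 2) * F.card) := by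
            rw [Finset.sum_const, nsmul_eq_mul]
        _ ≤ ((3 * M + 1) * N ^ ((1 : ℝ) / 2)) * (6 ^ d * N ^ ((d : ℝ) - 1 / 2) * F.card) := by
            have h1 : (J3.card : ℝ) ≤ J.card := by
              exact_mod_cast Finset.card_filter_le _ _
            have h2 : 0 ≤ 6 ^ d * N ^ ((d : ℝ) - 1 / 2) * (F.card : ℝ) := by positivity
            exact mul_le_mul_of_nonneg_right (h1.trans hcardJ) h2
        _ = (3 * M + 1) * 6 ^ d * (N ^ ((1 : ℝ) / 2) * N ^ ((d : ℝ) - 1 / 2)) * F.card := by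
            ring
        _ = _ := by
            rw [← Real.rpow_add hN']
            have : (1 : ℝ) / 2 + ((d : ℝ) - 1 / 2) = (d : ℝ) := by ring
            rw [this, Real.rpow_natCast]
    have h5 : 0 ≤ 2 * 5 ^ d * (N0 ^ M) ^ d * N ^ d * (F.card : ℝ) := by positivity
    have h6 : (2 * 5 ^ d * (N0 ^ M) ^ d + (2 * 5 ^ d * C1 ^ d + 2 * C + (3 * M + 1) * 6 ^ d))
        * N ^ d * F.card = 2 * 5 ^ d * (N0 ^ M) ^ d * N ^ d * (F.card : ℝ)
        + 2 * 5 ^ d * C1 ^ d * N ^ d * F.card + 2 * C * N ^ d * F.card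
        + (3 * M + 1) * 6 ^ d * N ^ d * F.card := by ring
    rw [h6]
    linarith

end Pool.Agent.H35.KS
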