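import Pool.Agent.H98.KS.Targets2

/-!
# RU: the number of `n`-th roots modulo a prime power
-/

set_option autoImplicit false

open scoped BigOperators

namespace Pool.Agent.H35.KS

open Pool.Agent.H98.KS

open Classical in
/-- `n`-th roots of unity in a group with a cyclic subgroup of index at most two. -/
lemma card_root_le {G : Type*} [CommGroup G] [Fintype G] (H : Subgroup G)
    (hH : IsCyclic H) (hi : H.index ≤ 2) (n : ℕ) (hn : 1 ≤ n) :
    (Finset.univ.filter (fun g : G => g ^ n = 1)).card ≤ n ^ 2 := by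
  rcases Nat.lt_or_ge n 2 with h1 | h1
  · have : n = 1 := by omega
    subst this
    simp only [pow_one, one_pow]
    refine Finset.card_le_one.2 ?_
    intro a ha b hb
    simp only [Finset.mem_filter, Finset.mem_univ, true_and] at ha hb
    rw [ha, hb]
  · have h2 : (Finset.univ.filter (fun g : G => g ^ n = 1)).card ≤ n * 2 := by
      have h3 : ((Finset.univ.filter (fun g : G => g ^ n = 1)).image
          (fun g : G => (g : G ⧸ H))).card ≤ 2 := by
        refine (Finset.card_le_univ _).trans ?_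
        rw [← Nat.card_eq_fintype_card]
        exact hi
      refine (Finset.card_le_mul_card_image (f := fun g : G => (g : G ⧸ H)) _ n ?_).trans
        (Nat.mul_le_mul_left n h3)
      intro q hq
      obtain ⟨g0, hg0, rfl⟩ := Finset.mem_image.1 hq
      simp only [Finset.mem_filter, Finset.mem_univ, true_and] at hg0
      have h4 : (Finset.univ.filter (fun h : H => h ^ n = 1)).card ≤ n :=
        IsCyclic.card_pow_eq_one_le (by omega)
      refine le_trans ?_ h4
      refine Finset.card_le_card_of_injOn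
        (fun g => if h : g0⁻¹ * g ∈ H then (⟨g0⁻¹ * g, h⟩ : H) else 1) ?_ ?_
      · intro g hg
        simp only [Finset.coe_filter, Finset.mem_filter, Finset.mem_univ, true_and,
          Set.mem_ofPred_eq] at hg ⊢
        have h5 : g0⁻¹ * g ∈ H := QuotientGroup.eq.1 hg.2.symm
        rw [dif_pos h5]
        ext
        simp only [SubgroupClass.coe_pow, OneMemClass.coe_one]
        rw [mul_pow, inv_pow, hg0, hg.1]
        simp
      · intro g hg g' hg' h
        simp only [Finset.coe_filter, Finset.mem_filter, Finset.mem_univ, true_and,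
          Set.mem_ofPred_eq] at hg hg'
        have h5 : g0⁻¹ * g ∈ H := QuotientGroup.eq.1 hg.2.symm
        have h6 : g0⁻¹ * g' ∈ H := QuotientGroup.eq.1 hg'.2.symm
        simp only [dif_pos h5, dif_pos h6, Subtype.mk.injEq] at h
        exact mul_left_cancel h
    nlinarith

/-- the unit group modulo a prime power has a cyclic subgroup of index at most two. -/
lemma exists_cyclic (p m : ℕ) (hp : p.Prime) (hm : 1 ≤ m) :
    ∃ H : Subgroup (ZMod (p ^ m))ˣ, IsCyclic H ∧ H.index ≤ 2 := by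
  by_cases hp2 : p = 2
  · subst hp2
    rcases Nat.lt_or_ge m 2 with h1 | h1
    · have h2 : IsCyclic (ZMod (2 ^ m))ˣ := (ZMod.isCyclic_units_two_pow_iff m).2 (by omega)
      refine ⟨⊤, ?_, ?_⟩
      · infer_instance
      · simp
    · obtain ⟨r, rfl⟩ := Nat.exists_eq_add_of_le' h1
      have hc : Nat.Coprime 5 (2 ^ (r + 2)) := by
        apply Nat.Coprime.pow_right
        norm_num
      set u := ZMod.unitOfCoprime 5 hc with hu
      have ho : orderOf u = 2 ^ r := by
        rw [← orderOf_units, hu, ZMod.coe_unitOfCoprime]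
        exact_mod_cast ZMod.orderOf_five r
      refine ⟨Subgroup.zpowers u, inferInstance, ?_⟩
      have h3 := (Subgroup.zpowers u).card_mul_index
      rw [Nat.card_zpowers, ho, Nat.card_eq_fintype_card, ZMod.card_units_eq_totient,
        Nat.totient_prime_pow_succ hp] at h3
      have h4 : 0 < 2 ^ r := by positivity
      have h5 : 2 ^ r * (Subgroup.zpowers u).index = 2 ^ r * 2 := by
        rw [h3, pow_succ]
        simp
      exact (Nat.eq_of_mul_eq_mul_left h4 h5).le
  · have h2 : IsCyclic (ZMod (p ^ m))ˣ := ZMod.isCyclic_units_of_prime_pow p hp hp2 m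
    refine ⟨⊤, ?_, ?_⟩
    · infer_instance
    · simp

lemma ru_cop (p m n : ℕ) (c : ℤ) (hp : p.Prime) (hm : 1 ≤ m) (hn : 1 ≤ n)
    (hc : ¬ (p : ℤ) ∣ c) (x : ℕ) (hx : ((p : ℤ) ^ m) ∣ (x : ℤ) ^ n - c) :
    Nat.Coprime x (p ^ m) := by
  apply Nat.Coprime.pow_right
  rw [Nat.coprime_comm, Nat.Prime.coprime_iff_not_dvd hp]
  intro h
  have h1 : (p : ℤ) ∣ (x : ℤ) ^ n := dvd_pow (by exact_mod_cast h) (by omega)
  have h2 : (p : ℤ) ∣ (x : ℤ) ^ n - c := (dvd_pow_self _ (by omega)).trans hx
  exact hc ((dvd_sub_right h1).1 h2)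

open Classical in
lemma ru_nat (p m n : ℕ) (c : ℤ) (hp : p.Prime) (hm : 1 ≤ m) (hn : 1 ≤ n)
    (hc : ¬ (p : ℤ) ∣ c) :
    ((Finset.range (p ^ m)).filter
      (fun x : ℕ => ((p : ℤ) ^ m) ∣ ((x : ℕ) : ℤ) ^ n - c)).card ≤ n ^ 2 := by
  have : NeZero (p ^ m) := ⟨pow_ne_zero _ hp.ne_zero⟩
  rcases Finset.eq_empty_or_nonempty ((Finset.range (p ^ m)).filter
    (fun x : ℕ => ((p : ℤ) ^ m) ∣ ((x : ℕ) : ℤ) ^ n - c)) with h0 | ⟨x0, hx0⟩
  · rw [h0]; simp
  obtain ⟨H, hH, hi⟩ := exists_cyclic p m hp hm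
  refine le_trans ?_ (card_root_le H hH hi n hn)
  have hx0' := (Finset.mem_filter.1 hx0).2
  have hc0 := ru_cop p m n c hp hm hn hc x0 hx0'
  have hpow : ∀ x : ℕ, ∀ hx : Nat.Coprime x (p ^ m), ((p : ℤ) ^ m) ∣ (x : ℤ) ^ n - c →
      (((ZMod.unitOfCoprime x hx) ^ n : (ZMod (p ^ m))ˣ) : ZMod (p ^ m)) = c := by
    intro x hx hd
    rw [Units.val_pow_eq_pow_val, ZMod.coe_unitOfCoprime]
    have h1 : (((x : ℤ) ^ n - c : ℤ) : ZMod (p ^ m)) = 0 := by
      rw [ZMod.intCast_zmod_eq_zero_iff_dvd]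
      exact_mod_cast hd
    push_cast at h1
    exact sub_eq_zero.1 h1
  refine Finset.card_le_card_of_injOn
    (fun x : ℕ => if h : Nat.Coprime x (p ^ m) then
      ZMod.unitOfCoprime x h * (ZMod.unitOfCoprime x0 hc0)⁻¹ else 1) ?_ ?_
  · intro x hx
    have hx' := (Finset.mem_filter.1 hx).2
    have hcx := ru_cop p m n c hp hm hn hc x hx'
    simp only [dif_pos hcx, Finset.coe_filter, Finset.mem_univ, true_and, Set.mem_ofPred_eq]
    rw [mul_pow, inv_pow, mul_inv_eq_one]
    ext
    rw [hpow x hcx hx', hpow x0 hc0 hx0']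
  · intro x hx y hy h
    have hx' := Finset.mem_filter.1 hx
    have hy' := Finset.mem_filter.1 hy
    have hcx := ru_cop p m n c hp hm hn hc x hx'.2
    have hcy := ru_cop p m n c hp hm hn hc y hy'.2
    simp only [dif_pos hcx, dif_pos hcy] at h
    have h1 := mul_right_cancel h
    have h2 := congrArg (fun u : (ZMod (p ^ m))ˣ => (u : ZMod (p ^ m))) h1
    simp only [ZMod.coe_unitOfCoprime] at h2
    have h3 := (ZMod.natCast_eq_natCast_iff' x y (p ^ m)).1 h2
    rwa [Nat.mod_eq_of_lt (Finset.mem_range.1 hx'.1),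
      Nat.mod_eq_of_lt (Finset.mem_range.1 hy'.1)] at h3

open Classical in
lemma bind_cast (s : Finset ℕ) : (do let a ← s; pure ((a : ℕ) : ℤ) : Finset ℤ)
    = s.image (fun a : ℕ => (a : ℤ)) := by
  ext z
  simp [Finset.bind_def, Finset.pure_def]

theorem ks_RU : T_RU := by
  classical
  intro p m n c hp hm hn hc
  rw [bind_cast, Finset.filter_image]
  exact Finset.card_image_le.trans (ru_nat p m n c hp hm hn hc)

end Pool.Agent.H35.KS
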