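import Pool.Agent.H98.KS.Targets2

/-!
# G6: the bound for complete sums modulo all powers of large primes
-/

set_option autoImplicit false

open scoped BigOperators

namespace Pool.Agent.H35.KS

open Pool.Agent.H98.KS

lemma g6_exp (k j : ℕ) (hk : 3 ≤ k) (hj : 2 ≤ j) (h33 : ¬ (k = 3 ∧ j = 3)) :
    (1 : ℝ) / 4 ≤ ((j / 2 : ℕ) : ℝ) - j / k := by
  have hk0 : (0 : ℝ) < k := by positivity
  rcases Nat.lt_or_ge k 4 with h | h
  · have hk3 : k = 3 := by omega
    subst hk3
    rcases Nat.even_or_odd' j with ⟨r, rfl | rfl⟩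
    · have h1 : 2 * r / 2 = r := by omega
      rw [h1]
      have h2 : (1 : ℝ) ≤ r := by exact_mod_cast (by omega : 1 ≤ r)
      push_cast
      linarith
    · have h1 : (2 * r + 1) / 2 = r := by omega
      rw [h1]
      have h2 : (2 : ℝ) ≤ r := by exact_mod_cast (by omega : 2 ≤ r)
      push_cast
      linarith
  · have h4 : (4 : ℝ) ≤ k := by exact_mod_cast h
    have h5 : (j : ℝ) / k ≤ j / 4 := by
      apply div_le_div_of_nonneg_left (by positivity) (by norm_num) h4
    rcases Nat.even_or_odd' j with ⟨r, rfl | rfl⟩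
    · have h1 : 2 * r / 2 = r := by omega
      rw [h1]
      have h2 : (1 : ℝ) ≤ r := by exact_mod_cast (by omega : 1 ≤ r)
      push_cast at h5 ⊢
      linarith
    · have h1 : (2 * r + 1) / 2 = r := by omega
      rw [h1]
      have h2 : (1 : ℝ) ≤ r := by exact_mod_cast (by omega : 1 ≤ r)
      push_cast at h5 ⊢
      linarith

theorem ks_G6 (hGE : T_GE) (hG3 : T_G3) (hG4 : T_G4) (hG5 : T_G5) (hG1z : T_G1z)
    (hG1a : T_G1a) (hG1b : T_G1b) (hG1c : T_G1c) : T_G6 := by
  intro k hk
  have hk0 : (0 : ℝ) < k := by positivity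
  -- the prime case
  have hprime : ∃ p1 : ℕ, ∀ (p : ℕ) (a b : ℤ), p.Prime → p1 ≤ p →
      ¬ (p : ℤ) ∣ a → ¬ (p : ℤ) ∣ b → ‖GG k a b p‖ ≤ (p : ℝ) ^ (-(1 / (k : ℝ))) := by
    rcases Nat.lt_or_ge k 5 with h | h
    · rcases Nat.lt_or_ge k 4 with h' | h'
      · have hk3 : k = 3 := by omega
        subst hk3
        exact_mod_cast hG1c
      · have hk4 : k = 4 := by omega
        subst hk4
        exact_mod_cast hG1b
    · exact hG1a k h
  obtain ⟨p1, hp1⟩ := hprime
  refine ⟨p1 + (k + 1) + k ^ 8 + (2 * k) ^ 6 + 5, ?_⟩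
  intro p j a b hp hp0 ha
  have hpk : k < p := by
    have := Nat.zero_le (k ^ 8)
    have := Nat.zero_le ((2 * k) ^ 6)
    omega
  have hpp1 : p1 ≤ p := by
    have := Nat.zero_le (k ^ 8)
    have := Nat.zero_le ((2 * k) ^ 6)
    omega
  have hp8 : k ^ 8 ≤ p := by
    have := Nat.zero_le ((2 * k) ^ 6)
    omega
  have hp6 : (2 * k) ^ 6 ≤ p := by
    have := Nat.zero_le (k ^ 8)
    omega
  have hp5 : 5 ≤ p := by
    have := Nat.zero_le (k ^ 8)
    have := Nat.zero_le ((2 * k) ^ 6)
    omega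
  have hP1 : (1 : ℝ) ≤ p := by exact_mod_cast hp.one_le
  have hP0 : (0 : ℝ) < p := by linarith
  have hndk : ¬ p ∣ k := fun h => absurd (Nat.le_of_dvd (by omega) h) (by omega)
  have hrw : ∀ j : ℕ, ((p : ℝ) ^ j) ^ (-(1 / (k : ℝ))) = (p : ℝ) ^ (-((j : ℝ) / k)) := by
    intro j
    rw [← Real.rpow_natCast_mul hP0.le]
    congr 1
    ring
  have hq4 : (k : ℝ) ^ 2 ≤ (p : ℝ) ^ ((1 : ℝ) / 4) := by
    have h1 : ((k : ℝ) ^ 8) ^ ((1 : ℝ) / 4) ≤ (p : ℝ) ^ ((1 : ℝ) / 4) :=
      Real.rpow_le_rpow (by positivity) (by exact_mod_cast hp8) (by norm_num)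
    have h2 : ((k : ℝ) ^ 8) ^ ((1 : ℝ) / 4) = (k : ℝ) ^ 2 := by
      rw [← Real.rpow_natCast_mul hk0.le, ← Real.rpow_natCast]
      congr 1
      norm_num
    rwa [h2] at h1
  have hq6 : 2 * (k : ℝ) ≤ (p : ℝ) ^ ((1 : ℝ) / 6) := by
    have h1 : ((2 * (k : ℝ)) ^ 6) ^ ((1 : ℝ) / 6) ≤ (p : ℝ) ^ ((1 : ℝ) / 6) :=
      Real.rpow_le_rpow (by positivity) (by exact_mod_cast hp6) (by norm_num)
    have h2 : ((2 * (k : ℝ)) ^ 6) ^ ((1 : ℝ) / 6) = 2 * (k : ℝ) := by
      rw [← Real.rpow_natCast_mul (by positivity)]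
      norm_num
    rwa [h2] at h1
  induction j using Nat.strong_induction_on generalizing b with
  | _ j ih =>
    rcases Nat.lt_or_ge j 2 with hj | hj
    · rcases Nat.lt_or_ge j 1 with hj0 | hj1
      · have : j = 0 := by omega
        subst this
        simp only [pow_zero, Real.one_rpow]
        exact (hGE k 1 a b (le_refl _)).1
      · have : j = 1 := by omega
        subst this
        simp only [pow_one]
        by_cases hb : (p : ℤ) ∣ b
        · refine (hG1z k p a b (by omega) hp ha hb).trans ?_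
          have h1 : (p : ℝ) ^ ((1 : ℝ) / 6) / Real.sqrt p = (p : ℝ) ^ (-((1 : ℝ) / 3)) := by
            rw [Real.sqrt_eq_rpow, ← Real.rpow_sub hP0]
            norm_num
          have h2 : 2 * (k : ℝ) / Real.sqrt p ≤ (p : ℝ) ^ (-((1 : ℝ) / 3)) := by
            rw [← h1]
            gcongr
          refine h2.trans ?_
          refine Real.rpow_le_rpow_of_exponent_le hP1 ?_
          have h3 : (3 : ℝ) ≤ k := by exact_mod_cast hk
          have h4 : (1 : ℝ) / k ≤ 1 / 3 := by
            apply div_le_div_of_nonneg_left (by norm_num) (by norm_num) h3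
          linarith
        · exact hp1 p a b hp hpp1 ha hb
    · rw [hrw]
      by_cases hb : (p : ℤ) ∣ b
      · obtain ⟨h1, h2⟩ := hG3 k p j 0 a b hp (by omega) (by simp) (by simpa using hndk)
          (by omega) ha (by simpa using hb)
        rcases Nat.lt_or_ge k j with hkj | hkj
        · obtain ⟨b', hb'⟩ := h2 hkj
          refine hb'.trans ?_
          have h3 := ih (j - k) (by omega) b'
          rw [hrw] at h3
          have h4 : (p : ℝ) ^ (-((j : ℝ) / k)) = 1 / p * (p : ℝ) ^ (-(((j - k : ℕ) : ℝ) / k)) := by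
            rw [one_div, ← Real.rpow_neg_one, ← Real.rpow_add hP0]
            congr 1
            rw [Nat.cast_sub hkj.le]
            field_simp
            ring
          rw [h4]
          gcongr
        · refine (h1 hkj).trans ?_
          rw [one_div, ← Real.rpow_neg_one]
          refine Real.rpow_le_rpow_of_exponent_le hP1 ?_
          have h3 : (j : ℝ) / k ≤ 1 := by
            rw [div_le_one hk0]
            exact_mod_cast hkj
          linarith
      · by_cases h33 : k = 3 ∧ j = 3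
        · obtain ⟨rfl, rfl⟩ := h33
          refine (hG5 p a b hp hp5 ha hb).trans ?_
          rw [one_div, ← Real.rpow_neg_one]
          norm_num
        · have h1 := hG4 k p j 0 a b hp (by omega) (by simp) (by simpa using hndk)
            (by omega) ha (by simpa using hb)
          refine h1.trans ?_
          have h2 : (p : ℝ) ^ (-((j : ℝ) / k))
              = (p : ℝ) ^ (((j / 2 : ℕ) : ℝ) - j / k) / (p : ℝ) ^ (j / 2) := by
            rw [← Real.rpow_natCast, ← Real.rpow_sub hP0]
            congr 1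
            ring
          rw [h2, pow_zero, mul_one]
          gcongr
          refine hq4.trans ?_
          exact Real.rpow_le_rpow_of_exponent_le hP1 (g6_exp k j hk hj h33)

end Pool.Agent.H35.KS
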